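import Mathlib
import Pool.Agent.N1.Poi.Main

/-!
# MP_d88b0b_al, Q1

Tensor products of the Poisson algebras `P_{Ωᵢ-ξᵢ}` of i.s. potentials are Dixmier, also when some
of the degrees coincide. The proof uses, for each `i`, the filtration of the tensor product by the
degree in the `i`-th factor: its associated graded ring is reduced, and comparing leading terms in
`{x, y} = ∂Ω/∂z` bounds the degrees of the images of the generators by one constant which works for
all Poisson endomorphisms at once, in particular for all iterates of a given one.
-/

set_option autoImplicit false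

universe u

open scoped TensorProduct
open Pool.Agent.N1.Poi

namespace Pool.Agent.Results.MP_d88b0b_al.TensorDixmier

/-- Let `k` be a field and let `Ω₁, …, Ω_d` be homogeneous potentials in `k[x,y,z]` with isolated
singularities, of arbitrary degrees at least four (equal degrees are allowed), and let
`ξ₁, …, ξ_d ∈ k`. Then each injective Poisson algebra endomorphism of the tensor product
`⨂ᵢ k[x,y,z]/(Ωᵢ - ξᵢ)` is bijective. -/
theorem result (k : Type u) [Field k] (d : ℕ) (n : Fin d → ℕ) (hn : ∀ i, 4 ≤ n i)
    (Ω : Fin d → MvPolynomial (Fin 3) k) (hΩ : ∀ i, (Ω i).IsHomogeneous (n i))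
    (hiso : ∀ i, IsIsolatedSingularity (Ω i)) (ξ : Fin d → k) :
    IsDixmier (tensorBracket (fun i => PotQuot (Ω i) (ξ i)) fun i => potBracket (Ω i) (ξ i)) :=
  dixmier hn hΩ hiso

end Pool.Agent.Results.MP_d88b0b_al.TensorDixmier
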